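import Pool.Agent.PST.StmtsU

set_option autoImplicit false

open scoped BigOperators

namespace Pool.Agent.PST.U.H89

open Function

/-! ### orbits of a permutation -/

theorem dvd_card {α : Type} [Fintype α] (σ : Equiv.Perm α) (d : ℕ)
    (h : ∀ x, d ∣ minimalPeriod σ x) : d ∣ Fintype.card α := by
  classical
  have e := MulAction.selfEquivSigmaOrbits (Subgroup.zpowers σ) α
  rw [Fintype.card_congr e, Fintype.card_sigma]
  refine Finset.dvd_sum fun ω _ => ?_
  have h1 := MulAction.minimalPeriod_eq_card (a := σ) (b := ω.out)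
  have h2 := h ω.out
  have h3 : minimalPeriod (fun x => σ • x) ω.out = minimalPeriod σ ω.out := rfl
  rw [← h3, h1] at h2
  refine h2.trans (dvd_of_eq ?_)
  exact Fintype.card_congr (Equiv.refl _)

/-- a function invariant under a map `τ` with `τ^[ℓ^N] = 1` such that `τ^[ℓ^k]` has no fixed point -/
theorem sum_inv {U Z : Type} [Fintype U] [AddCommGroup Z] {ℓ N k : ℕ} [hp : Fact ℓ.Prime]
    (τ : U → U) (hτ : ∀ x, τ^[ℓ ^ N] x = x) (hfix : ∀ x, τ^[ℓ ^ k] x ≠ x) (Θ : U → Z)
    (hinv : ∀ x, Θ (τ x) = Θ x) : ∃ y : Z, ∑ x, Θ x = ℓ ^ (k + 1) • y := by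
  classical
  have hN : ℓ ^ N ≠ 0 := pow_ne_zero _ hp.out.ne_zero
  -- the inverse of `τ`
  let σ : Equiv.Perm U :=
    { toFun := τ
      invFun := τ^[ℓ ^ N - 1]
      left_inv := fun x => by
        rw [← iterate_succ_apply, Nat.succ_eq_add_one, Nat.sub_add_cancel (Nat.pos_of_ne_zero hN)]
        exact hτ x
      right_inv := fun x => by
        rw [← iterate_succ_apply' τ, Nat.succ_eq_add_one,
          Nat.sub_add_cancel (Nat.pos_of_ne_zero hN)]
        exact hτ x }
  have hper : ∀ x, ℓ ^ (k + 1) ∣ minimalPeriod τ x := fun x => by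
    have h1 : IsPeriodicPt τ (ℓ ^ N) x := hτ x
    obtain ⟨j, hj, hj'⟩ := (Nat.dvd_prime_pow hp.out).1 h1.minimalPeriod_dvd
    rw [hj']
    apply pow_dvd_pow
    by_contra hc
    apply hfix x
    have h2 : minimalPeriod τ x ∣ ℓ ^ k := by
      rw [hj']; exact pow_dvd_pow _ (by omega)
    exact (isPeriodicPt_iff_minimalPeriod_dvd.2 h2)
  have hz : ∀ z : Z, ℓ ^ (k + 1) ∣ (Finset.univ.filter (fun x => Θ x = z)).card := fun z => by
    have hσz : ∀ x, Θ x = z ↔ Θ (σ x) = z := fun x => by
      change _ ↔ Θ (τ x) = z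
      rw [hinv]
    let σz : Equiv.Perm {x : U // Θ x = z} := σ.subtypePerm (fun x => (hσz x).symm)
    have h2 := dvd_card σz (ℓ ^ (k + 1)) (fun x => by
      have : minimalPeriod σz x = minimalPeriod τ x.1 := by
        have hit : ∀ n : ℕ, ((σz^[n] x).1) = τ^[n] x.1 := by
          intro n
          induction n with
          | zero => rfl
          | succ n ih =>
            rw [iterate_succ_apply', iterate_succ_apply', ← ih]
            rfl
        apply Nat.dvd_antisymm
        · apply isPeriodicPt_iff_minimalPeriod_dvd.1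
          change σz^[_] x = x
          apply Subtype.ext
          rw [hit]
          exact isPeriodicPt_minimalPeriod τ x.1
        · apply isPeriodicPt_iff_minimalPeriod_dvd.1
          change τ^[_] x.1 = x.1
          rw [← hit]
          exact congrArg Subtype.val (isPeriodicPt_minimalPeriod σz x)
      rw [this]; exact hper x.1)
    rwa [Fintype.card_subtype] at h2
  have h1 : ∑ x, Θ x = ∑ z ∈ Finset.univ.image Θ, ∑ x ∈ Finset.univ.filter (fun x => Θ x = z), Θ x :=
    (Finset.sum_fiberwise_of_maps_to (fun x _ => Finset.mem_image_of_mem Θ (Finset.mem_univ x)) Θ).symm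
  choose c hc using hz
  refine ⟨∑ z ∈ Finset.univ.image Θ, c z • z, ?_⟩
  rw [h1, Finset.smul_sum]
  refine Finset.sum_congr rfl fun z _ => ?_
  rw [Finset.sum_congr rfl (fun x hx => (Finset.mem_filter.1 hx).2), Finset.sum_const, hc z,
    mul_smul]

section

variable {W X B Z : Type} [CommGroup W] [MulAction W X] [Ring B] [AddCommGroup Z]

/-- the product of the `a (u i)` -/
def pr (a : X → B) {n : ℕ} (u : Fin n → X) : B := (List.ofFn fun i => a (u i)).prod

theorem sum_pr [Fintype X] (a : X → B) (n : ℕ) : ∑ u : Fin n → X, pr a u = (∑ x, a x) ^ n := by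
  induction n with
  | zero => simp [pr]
  | succ n ih =>
    rw [← (Fin.consEquiv (fun _ => X)).sum_comp, Fintype.sum_prod_type, pow_succ', ← ih,
      Finset.sum_mul_sum]
    refine Finset.sum_congr rfl fun x _ => Finset.sum_congr rfl fun u _ => ?_
    simp [pr, Fin.consEquiv, List.ofFn_succ]

/-- the extension of a tuple by `ũ (i + n) = w ũ i` -/
def ex (w : W) {n : ℕ} (u : Fin (n + 1) → X) (j : ℕ) : X :=
  w ^ (j / (n + 1)) • u ⟨j % (n + 1), Nat.mod_lt _ n.succ_pos⟩

/-- the twisted rotation -/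
def ro (w : W) {n : ℕ} (u : Fin (n + 1) → X) (i : Fin (n + 1)) : X := ex w u (i.val + 1)

theorem ex_val (w : W) {n : ℕ} (u : Fin (n + 1) → X) (i : Fin (n + 1)) : ex w u i.val = u i := by
  unfold ex
  rw [Nat.div_eq_of_lt i.2, pow_zero, one_smul]
  congr 1
  exact Fin.ext (Nat.mod_eq_of_lt i.2)

theorem ex_add (w : W) {n : ℕ} (u : Fin (n + 1) → X) (j : ℕ) :
    ex w u (j + (n + 1)) = w • ex w u j := by
  unfold ex
  rw [Nat.add_div_right _ n.succ_pos, Nat.succ_eq_add_one, pow_succ', mul_smul]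
  congr 3
  exact Fin.ext (Nat.add_mod_right _ _)

theorem ex_add_mul (w : W) {n : ℕ} (u : Fin (n + 1) → X) (j q : ℕ) :
    ex w u (j + q * (n + 1)) = w ^ q • ex w u j := by
  induction q with
  | zero => simp
  | succ q ih =>
    rw [show j + (q + 1) * (n + 1) = j + q * (n + 1) + (n + 1) by ring, ex_add, ih, pow_succ',
      mul_smul]

theorem ex_ro (w : W) {n : ℕ} (u : Fin (n + 1) → X) (j : ℕ) : ex w (ro w u) j = ex w u (j + 1) := by
  have h1 : j = j % (n + 1) + (j / (n + 1)) * (n + 1) := by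
    rw [Nat.mul_comm]; exact (Nat.mod_add_div j (n + 1)).symm
  have h2 : ex w u (j + 1) = w ^ (j / (n + 1)) • ex w u (j % (n + 1) + 1) := by
    rw [← ex_add_mul]
    congr 1
    omega
  rw [h2]
  rfl

theorem ex_it (w : W) {n : ℕ} (u : Fin (n + 1) → X) (m j : ℕ) :
    ex w ((ro w)^[m] u) j = ex w u (j + m) := by
  induction m generalizing u with
  | zero => rfl
  | succ m ih =>
    rw [iterate_succ_apply, ih, ex_ro]
    congr 1

theorem ro_it (w : W) {n : ℕ} (u : Fin (n + 1) → X) (q : ℕ) (i : Fin (n + 1)) :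
    ((ro w)^[q * (n + 1)] u) i = w ^ q • u i := by
  rw [← ex_val w ((ro w)^[q * (n + 1)] u) i, ex_it, ex_add_mul, ex_val]

theorem f_ro (γ : W →* B) (a : X → B) (f : B →+ Z) (w : W)
    (ha : ∀ v x, γ v * a x * γ v⁻¹ = a (v • x)) (hf : ∀ x y, f (x * y) = f (y * x)) {n : ℕ}
    (u : Fin (n + 1) → X) : f (γ w * pr a (ro w u)) = f (γ w * pr a u) := by
  have hv' : γ w⁻¹ * γ w = 1 := by rw [← map_mul, inv_mul_cancel, map_one]
  have h1 : pr a u = a (u 0) * (List.ofFn fun i : Fin n => a (u i.succ)).prod := by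
    rw [pr, List.ofFn_succ, List.prod_cons]
  have h2 : pr a (ro w u) = (List.ofFn fun i : Fin n => a (u i.succ)).prod * a (w • u 0) := by
    rw [pr, List.ofFn_succ', List.concat_eq_append, List.prod_append, List.prod_cons,
      List.prod_nil, mul_one]
    congr 2
    · congr 1
      funext i
      congr 1
      have := ex_val w u i.succ
      rw [← this]; rfl
    · congr 1
      have : ro w u (Fin.last n) = ex w u (0 + (n + 1)) := by
        unfold ro; congr 1; simp
      rw [this, ex_add]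
      congr 1
      have h0 := ex_val w u 0
      exact h0
  rw [h1, h2, ← ha]
  set P := (List.ofFn fun i : Fin n => a (u i.succ)).prod
  have e : γ w * (P * (γ w * a (u 0) * γ w⁻¹)) = (γ w * (P * γ w * a (u 0))) * γ w⁻¹ := by
    simp only [mul_assoc]
  rw [e, hf, ← mul_assoc, hv', one_mul]
  rw [show P * γ w * a (u 0) = P * (γ w * a (u 0)) by rw [mul_assoc], hf]
  simp only [mul_assoc]

end

theorem vnx : VnxStmt := by
  intro ℓ hp W X B Z _ _ _ _ _ _ γ a f w k hW ha hf hw
  obtain ⟨g, hg⟩ := IsPGroup.iff_orderOf.1 hW w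
  obtain ⟨n, hn⟩ : ∃ n, ℓ ^ k = n + 1 :=
    ⟨ℓ ^ k - 1, by have := Nat.pos_of_ne_zero (pow_ne_zero k hp.out.ne_zero); omega⟩
  have h1 : f (γ w * (∑ x, a x) ^ ℓ ^ k) = ∑ u : Fin (n + 1) → X, f (γ w * pr a u) := by
    rw [hn, ← sum_pr, Finset.mul_sum, map_sum]
  rw [h1]
  refine sum_inv (N := g + k) (ro w) ?_ ?_ _ (fun u => f_ro γ a f w ha hf u)
  · intro u
    funext i
    rw [pow_add, hn, ro_it, ← hg, pow_orderOf_eq_one, one_smul]
  · intro u hu
    have := congrFun hu 0
    rw [hn] at this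
    have h2 := ro_it w u 1 0
    rw [one_mul, pow_one] at h2
    rw [h2] at this
    exact hw _ this

end Pool.Agent.PST.U.H89
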